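import Pool.Agent.helper48.SG.SpecH

/-!
# Project sg, part H07: abstract comparison
-/

set_option autoImplicit false

open MeasureTheory Set Metric Filter Topology
open scoped ENNReal NNReal ComplexConjugate

namespace Pool.Agent.SG

theorem H07 : H07_stmt := by
  intro Γ _ W D h h' x p q a b hx hp hx' hp' hq hab
  set r : Γ → ℝ≥0∞ := fun w => W.exi D x w - q * W.exi D p w with hr
  have he : ∀ w, W.exi D x w = q * W.exi D p w + r w := by
    intro w
    simp only [hr]
    rw [add_tsub_cancel_of_le (hq w)]
  have key : ∀ g : Γ → ℝ≥0∞, g x = ∑' w, W.exi D x w * g w → g p = ∑' w, W.exi D p w * g w →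
      g x = q * g p + ∑' w, r w * g w := by
    intro g h1 h2
    rw [h1]
    conv_rhs => rw [h2]
    rw [← ENNReal.tsum_mul_left, ← ENNReal.tsum_add]
    apply tsum_congr
    intro w
    conv_lhs => rw [he w]
    ring
  have k1 := key h hx hp
  have k2 := key h' hx' hp'
  have hr0 : ∀ w, W.exi D x w = 0 → r w = 0 := by
    intro w hw
    have := he w
    rw [hw] at this
    have h3 := (add_eq_zero.mp this.symm).2
    exact h3
  have e1 : a * ∑' w, r w * h' w ≤ ∑' w, r w * h w := by
    rw [← ENNReal.tsum_mul_left]
    apply ENNReal.tsum_le_tsum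
    intro w
    by_cases hw : W.exi D x w = 0
    · rw [hr0 w hw]
      simp
    · calc a * (r w * h' w) = r w * (a * h' w) := by ring
        _ ≤ r w * h w := by
          gcongr
          exact (hab w hw).1
  have e2 : ∑' w, r w * h w ≤ b * ∑' w, r w * h' w := by
    rw [← ENNReal.tsum_mul_left]
    apply ENNReal.tsum_le_tsum
    intro w
    by_cases hw : W.exi D x w = 0
    · rw [hr0 w hw]
      simp
    · calc r w * h w ≤ r w * (b * h' w) := by
            gcongr
            exact (hab w hw).2
        _ = b * (r w * h' w) := by ring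
  constructor
  · rw [k1, k2]
    calc q * h p + a * (q * h' p + ∑' w, r w * h' w)
        = q * h p + a * (q * h' p) + a * ∑' w, r w * h' w := by ring
      _ ≤ q * h p + a * (q * h' p) + ∑' w, r w * h w := by gcongr
      _ = q * h p + ∑' w, r w * h w + a * (q * h' p) := by ring
  · rw [k1, k2]
    calc q * h p + ∑' w, r w * h w + b * (q * h' p)
        ≤ q * h p + b * (∑' w, r w * h' w) + b * (q * h' p) := by gcongr
      _ = q * h p + b * (q * h' p + ∑' w, r w * h' w) := by ring

end Pool.Agent.SG
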