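import Pool.Agent.helper24.SG.SpecD

/-!
# Project sg, part D13: saturation
-/

set_option autoImplicit false

open MeasureTheory Set Metric Filter Topology
open scoped ENNReal NNReal ComplexConjugate

namespace Pool.Agent.SG

theorem D13_lip (h1 : B01_stmt) (h2 : B02_stmt) (Γ : Type) [Group Γ] (A : DiscRep Γ) (γ : Γ)
    (B : Set ℂ) : ∃ K : ℝ≥0, LipschitzOnWith K (A.act γ) (B ∩ circ) := by
  obtain ⟨-, b2, -⟩ := h1 Γ A
  obtain ⟨c1, -, -⟩ := h2 Γ A γ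
  have hq : ‖A.pt γ⁻¹‖ < 1 := b2 γ⁻¹ 0 (by simp)
  set s : ℝ := 1 - ‖A.pt γ⁻¹‖ with hs
  have hs0 : 0 < s := by linarith
  have hk : A.kk γ ≤ 1 := by
    unfold DiscRep.kk
    nlinarith [sq_nonneg ‖A.pt γ‖]
  refine ⟨⟨1 / s ^ 2, by positivity⟩, ?_⟩
  rw [lipschitzOnWith_iff_dist_le_mul]
  rintro z ⟨-, hz⟩ w ⟨-, hw⟩
  have hz1 : ‖z‖ = 1 := by simpa [circ] using hz
  have hw1 : ‖w‖ = 1 := by simpa [circ] using hw
  have key := c1 z w hz1.le hw1.le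
  have low : ∀ u : ℂ, ‖u‖ = 1 → s ≤ ‖1 - conj (A.pt γ⁻¹) * u‖ := by
    intro u hu
    have h3 := norm_sub_norm_le (1 : ℂ) (conj (A.pt γ⁻¹) * u)
    rw [norm_one, norm_mul, RCLike.norm_conj, hu, mul_one] at h3
    exact h3
  have lz := low z hz1
  have lw := low w hw1
  rw [dist_eq_norm, dist_eq_norm]
  change ‖A.act γ z - A.act γ w‖ ≤ 1 / s ^ 2 * ‖z - w‖
  have h4 : ‖A.act γ z - A.act γ w‖ * s * s ≤ ‖z - w‖ := by
    calc ‖A.act γ z - A.act γ w‖ * s * s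
        ≤ ‖A.act γ z - A.act γ w‖ * ‖1 - conj (A.pt γ⁻¹) * z‖ * ‖1 - conj (A.pt γ⁻¹) * w‖ := by
          gcongr
      _ = A.kk γ * ‖z - w‖ := key
      _ ≤ 1 * ‖z - w‖ := by gcongr
      _ = ‖z - w‖ := one_mul _
  rw [one_div, inv_mul_eq_div, le_div_iff₀ (by positivity)]
  calc ‖A.act γ z - A.act γ w‖ * s ^ 2 = ‖A.act γ z - A.act γ w‖ * s * s := by ring
    _ ≤ ‖z - w‖ := h4

theorem D13 (h1 : B01_stmt) (h2 : B02_stmt) (h14 : B14_stmt) : D13_stmt := by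
  intro Γ _ A ν B hdisc hν hB
  haveI : Countable Γ := (h14 Γ A).2.1 hdisc
  obtain ⟨-, -, b3, b4, b5, b6, b7, b8, -, -⟩ := h1 Γ A
  have hc : ∀ ξ : ℂ, ξ ∈ circ ↔ ‖ξ‖ = 1 := fun ξ => by simp [circ]
  have hcirc : MeasurableSet circ := isClosed_sphere.measurableSet
  refine ⟨⋃ γ, A.act γ '' (B ∩ circ), ?_, ?_, ?_, ?_, ?_⟩
  · apply MeasurableSet.iUnion
    intro γ
    have : A.act γ '' (B ∩ circ) = circ ∩ A.act γ⁻¹ ⁻¹' B := by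
      ext ξ
      constructor
      · rintro ⟨η, ⟨hη, hη'⟩, rfl⟩
        rw [hc] at hη'
        refine ⟨(hc _).mpr (b3 γ η hη'), ?_⟩
        rw [mem_preimage, b6 γ η hη'.le]
        exact hη
      · rintro ⟨hξ, hξ'⟩
        rw [hc] at hξ
        exact ⟨A.act γ⁻¹ ξ, ⟨hξ', (hc _).mpr (b3 γ⁻¹ ξ hξ)⟩, b7 γ ξ hξ.le⟩
    rw [this]
    exact hcirc.inter (b8 γ⁻¹ hB)
  · rintro ξ hξ
    obtain ⟨γ, η, ⟨_, hη⟩, rfl⟩ := mem_iUnion.mp hξ
    exact (hc _).mpr (b3 γ η ((hc _).mp hη))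
  · calc ν B ≤ ν ((B ∩ circ) ∪ circᶜ) := by
          apply measure_mono
          intro ξ hξ
          by_cases h : ξ ∈ circ
          · exact Or.inl ⟨hξ, h⟩
          · exact Or.inr h
      _ ≤ ν (B ∩ circ) + ν circᶜ := measure_union_le _ _
      _ = ν (B ∩ circ) := by rw [hν, add_zero]
      _ ≤ ν (⋃ γ, A.act γ '' (B ∩ circ)) := by
          apply measure_mono
          intro ξ hξ
          exact mem_iUnion.mpr ⟨1, ξ, hξ, b4 ξ ((hc _).mp hξ.2).le⟩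
  · intro γ ξ hξ
    rw [hc] at hξ
    constructor
    · intro h
      obtain ⟨δ, η, ⟨hη1, hη2⟩, he⟩ := mem_iUnion.mp h
      refine mem_iUnion.mpr ⟨γ⁻¹ * δ, η, ⟨hη1, hη2⟩, ?_⟩
      rw [b5 _ _ _ ((hc _).mp hη2).le, he, b6 γ ξ hξ.le]
    · intro h
      obtain ⟨δ, η, ⟨hη1, hη2⟩, he⟩ := mem_iUnion.mp h
      refine mem_iUnion.mpr ⟨γ * δ, η, ⟨hη1, hη2⟩, ?_⟩
      rw [b5 _ _ _ ((hc _).mp hη2).le, he]
  · rw [dimH_iUnion]
    apply iSup_le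
    intro γ
    obtain ⟨K, hK⟩ := D13_lip h1 h2 Γ A γ B
    exact (hK.dimH_image_le).trans (dimH_mono inter_subset_left)

end Pool.Agent.SG
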