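import Pool.Agent.helper68.SG.SpecK

/-!
# Project sg, part K07: a limit of elementary functions
-/

set_option autoImplicit false

open MeasureTheory Set Metric Filter Topology
open scoped ENNReal NNReal ComplexConjugate

namespace Pool.Agent.SG

theorem K07_log (k : ℕ) (A B p : ℝ) (hp : 0 < p) :
    Tendsto (fun y : ℝ => (A + B * Real.log y) ^ k * y ^ p) (𝓝[>] 0) (𝓝 0) := by
  set q : ℝ := p / (k + 1) with hq
  have hk : (0 : ℝ) < (k : ℝ) + 1 := by positivity
  have hq0 : 0 < q := div_pos hp hk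
  have h1 : Tendsto (fun y : ℝ => y ^ q) (𝓝[>] 0) (𝓝 0) := by
    have h := (Real.continuousAt_rpow_const (0 : ℝ) q (Or.inr hq0.le)).tendsto
    rw [Real.zero_rpow hq0.ne'] at h
    exact h.mono_left nhdsWithin_le_nhds
  have h2 : Tendsto (fun y : ℝ => Real.log y * y ^ q) (𝓝[>] 0) (𝓝 0) :=
    tendsto_log_mul_rpow_nhdsGT_zero hq0
  have h3 : Tendsto (fun y : ℝ => A * y ^ q + B * (Real.log y * y ^ q)) (𝓝[>] 0) (𝓝 0) := by
    simpa using (h1.const_mul A).add (h2.const_mul B)
  have h4 : Tendsto (fun y : ℝ => (A * y ^ q + B * (Real.log y * y ^ q)) ^ k * y ^ q)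
      (𝓝[>] 0) (𝓝 0) := by
    simpa using (h3.pow k).mul h1
  apply h4.congr'
  filter_upwards [self_mem_nhdsWithin] with y hy
  have hy0 : (0 : ℝ) < y := hy
  have e1 : A * y ^ q + B * (Real.log y * y ^ q) = (A + B * Real.log y) * y ^ q := by ring
  have e2 : (y ^ q) ^ k * y ^ q = y ^ p := by
    rw [← pow_succ, ← Real.rpow_natCast, ← Real.rpow_mul hy0.le]
    congr 1
    rw [hq]
    push_cast
    field_simp
  rw [e1, mul_pow, mul_assoc, e2]

theorem K07 : K07_stmt := by
  intro k a c C L D ha hc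
  have hs : Tendsto (fun r : ℝ => √(1 - r)) (𝓝[<] 1) (𝓝[>] 0) := by
    rw [tendsto_nhdsWithin_iff]
    constructor
    · have h : Tendsto (fun r : ℝ => √(1 - r)) (𝓝 1) (𝓝 (√(1 - 1))) :=
        (Continuous.tendsto (by fun_prop) 1)
      rw [sub_self, Real.sqrt_zero] at h
      exact h.mono_left nhdsWithin_le_nhds
    · filter_upwards [self_mem_nhdsWithin] with r hr
      have : r < 1 := hr
      exact Real.sqrt_pos.mpr (by linarith)
  have h1 := (K07_log k (C * (1 - Real.log c)) (-(2 * C)) a ha).const_mul (2 * D)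
  have h2 := (K07_log k (C * (1 + Real.log (2 / c))) (-C) 1 one_pos).const_mul (2 * L / c)
  have h3 := (h1.add h2).comp hs
  rw [mul_zero, mul_zero, add_zero] at h3
  apply h3.congr'
  filter_upwards [self_mem_nhdsWithin] with r hr
  have hr1 : r < 1 := hr
  simp only [Function.comp]
  set y : ℝ := √(1 - r) with hy
  have hy0 : 0 < y := Real.sqrt_pos.mpr (by linarith)
  have hyy : 1 - r = y ^ 2 := (Real.sq_sqrt (by linarith)).symm
  rw [hyy]
  have e1 : Real.log (1 / (c * y ^ 2)) = - Real.log c - 2 * Real.log y := by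
    rw [one_div, Real.log_inv, Real.log_mul hc.ne' (by positivity), Real.log_pow]
    push_cast
    ring
  have e2 : Real.log (2 / (c * y)) = Real.log (2 / c) - Real.log y := by
    rw [← Real.log_div (by positivity) hy0.ne']
    congr 1
    field_simp
  have e3 : 1 - (1 - y) = y := by ring
  rw [e1, e2, e3, Real.rpow_one]
  have e4 : C * (1 - Real.log c) + -(2 * C) * Real.log y
      = C * (1 + (- Real.log c - 2 * Real.log y)) := by ring
  have e5 : C * (1 + Real.log (2 / c)) + -C * Real.log y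
      = C * (1 + (Real.log (2 / c) - Real.log y)) := by ring
  rw [e4, e5]
  field_simp

end Pool.Agent.SG
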